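import Pool.Agent.W827.BW.Stm

/-!
# Project BW: every point off the drawing is in an open triangle
-/

set_option autoImplicit false

open MeasureTheory Filter Topology

namespace Pool.Agent.W397.BW

open Pool.Agent.W827.BW

lemma aff {A B C : ℂ} (h : (B - A).re * (C - A).im - (B - A).im * (C - A).re ≠ 0) :
    AffineIndependent ℝ ![A, B, C] := by
  rw [affineIndependent_iff_not_collinear_set]
  intro hc
  rw [collinear_iff_of_mem (Set.mem_insert A _)] at hc
  obtain ⟨v, hv⟩ := hc
  obtain ⟨r1, h1⟩ := hv B (by simp)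
  obtain ⟨r2, h2⟩ := hv C (by simp)
  apply h
  rw [vadd_eq_add] at h1 h2
  rw [h1, h2]
  simp
  ring

/-- closed region between two lines in a strip -/
def CT (t p q r u : ℝ) : Set ℂ := {z | t ≤ z.im ∧ z.im ≤ t + 1 ∧
  (t + 1 - z.im) * p + (z.im - t) * r ≤ z.re ∧ z.re ≤ (t + 1 - z.im) * q + (z.im - t) * u}

/-- open region between two lines in a strip -/
def OT (t p q r u : ℝ) : Set ℂ := {z | t < z.im ∧ z.im < t + 1 ∧
  (t + 1 - z.im) * p + (z.im - t) * r < z.re ∧ z.re < (t + 1 - z.im) * q + (z.im - t) * u}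

lemma convex_CT (t p q r u : ℝ) : Convex ℝ (CT t p q r u) := by
  rintro x ⟨x1, x2, x3, x4⟩ y ⟨y1, y2, y3, y4⟩ a b ha hb hab
  have hb' : b = 1 - a := by linarith
  subst hb'
  refine ⟨?_, ?_, ?_, ?_⟩ <;>
    simp only [Complex.add_im, Complex.add_re, Complex.real_smul, Complex.mul_im, Complex.mul_re,
      Complex.ofReal_re, Complex.ofReal_im, zero_mul, add_zero, sub_zero]
  · nlinarith [mul_le_mul_of_nonneg_left x1 ha, mul_le_mul_of_nonneg_left y1 hb]
  · nlinarith [mul_le_mul_of_nonneg_left x2 ha, mul_le_mul_of_nonneg_left y2 hb]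
  · nlinarith [mul_le_mul_of_nonneg_left x3 ha, mul_le_mul_of_nonneg_left y3 hb]
  · nlinarith [mul_le_mul_of_nonneg_left x4 ha, mul_le_mul_of_nonneg_left y4 hb]

lemma isOpen_OT (t p q r u : ℝ) : IsOpen (OT t p q r u) := by
  have c1 : Continuous fun z : ℂ => z.im := Complex.continuous_im
  have c2 : Continuous fun z : ℂ => z.re := Complex.continuous_re
  exact (isOpen_lt continuous_const c1).inter ((isOpen_lt c1 continuous_const).inter
    ((isOpen_lt (by fun_prop) c2).inter (isOpen_lt c2 (by fun_prop))))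

lemma interior_sub {t p q r u : ℝ} {K : Set ℂ} (hK : K ⊆ CT t p q r u) :
    interior K ⊆ OT t p q r u := by
  intro w hw
  obtain ⟨ε, hε, hb⟩ := Metric.isOpen_iff.1 isOpen_interior w hw
  have key : ∀ v : ℂ, ‖v‖ < ε → w + v ∈ CT t p q r u := by
    intro v hv
    apply hK
    apply interior_subset
    apply hb
    rw [Metric.mem_ball, dist_eq_norm]
    simpa using hv
  have n1 : ‖((ε / 2 : ℝ) : ℂ)‖ < ε := by
    rw [Complex.norm_real, Real.norm_of_nonneg (by positivity)]; linarith
  have n2 : ‖((-(ε / 2) : ℝ) : ℂ)‖ < ε := by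
    rw [Complex.norm_real, norm_neg, Real.norm_of_nonneg (by positivity)]; linarith
  have n3 : ‖((ε / 2 : ℝ) : ℂ) * Complex.I‖ < ε := by
    rw [norm_mul, Complex.norm_I, mul_one]; exact n1
  have n4 : ‖((-(ε / 2) : ℝ) : ℂ) * Complex.I‖ < ε := by
    rw [norm_mul, Complex.norm_I, mul_one]; exact n2
  have k1 := key _ n1
  have k2 := key _ n2
  have k3 := key _ n3
  have k4 := key _ n4
  simp only [CT, Set.mem_ofPred_eq, Complex.add_im, Complex.add_re, Complex.mul_im, Complex.mul_re,
    Complex.ofReal_re, Complex.ofReal_im, Complex.I_re, Complex.I_im, mul_zero, mul_one, zero_mul,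
    add_zero, sub_zero, zero_sub, sub_self] at k1 k2 k3 k4
  obtain ⟨_, _, _, a4⟩ := k1
  obtain ⟨_, _, b3, _⟩ := k2
  obtain ⟨_, c2, _, _⟩ := k3
  obtain ⟨d1, _, _, _⟩ := k4
  exact ⟨by linarith, by linarith, by linarith, by linarith⟩

lemma comb_mem {K : Set ℂ} (hK : Convex ℝ K) {A B C : ℂ} (hA : A ∈ K) (hB : B ∈ K) (hC : C ∈ K)
    {a b c : ℝ} (ha : 0 ≤ a) (hb : 0 ≤ b) (hc : 0 ≤ c) (h : a + b + c = 1) :
    a • A + b • B + c • C ∈ K := by
  have := hK.sum_mem (t := Finset.univ) (w := ![a, b, c]) (z := ![A, B, C])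
    (by intro i _; fin_cases i <;> simp [ha, hb, hc]) (by simp [Fin.sum_univ_three, h])
    (by intro i _; fin_cases i <;> simp [hA, hB, hC])
  simpa [Fin.sum_univ_three] using this

lemma int_U {t p q r : ℝ} (h : p < q) :
    interior (convexHull ℝ {(⟨p, t⟩ : ℂ), ⟨q, t⟩, ⟨r, t + 1⟩}) = OT t p q r r := by
  apply Set.Subset.antisymm
  · apply interior_sub
    apply convexHull_min _ (convex_CT _ _ _ _ _)
    rintro z (rfl | rfl | rfl)
    · exact ⟨le_rfl, by simp, by simp, by simp; linarith⟩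
    · exact ⟨le_rfl, by simp, by simp; linarith, by simp⟩
    · exact ⟨by simp, le_rfl, by simp, by simp⟩
  · refine interior_maximal ?_ (isOpen_OT _ _ _ _ _)
    rintro z ⟨h1, h2, h3, h4⟩
    have hqp : 0 < q - p := by linarith
    set b : ℝ := (z.re - (t + 1 - z.im) * p - (z.im - t) * r) / (q - p) with hb
    have hb' : b * (q - p) = z.re - (t + 1 - z.im) * p - (z.im - t) * r := by
      rw [hb]; field_simp
    have hb0 : 0 ≤ b := div_nonneg (by linarith) hqp.le
    have hb1 : b ≤ t + 1 - z.im := by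
      rw [hb, div_le_iff₀ hqp]; nlinarith
    have hz : z = (t + 1 - z.im - b) • (⟨p, t⟩ : ℂ) + b • (⟨q, t⟩ : ℂ) +
        (z.im - t) • (⟨r, t + 1⟩ : ℂ) := by
      apply Complex.ext <;>
        simp only [Complex.add_im, Complex.add_re, Complex.real_smul, Complex.mul_im,
          Complex.mul_re, Complex.ofReal_re, Complex.ofReal_im, zero_mul, add_zero, sub_zero]
      · linarith
      · ring
    rw [hz]
    exact comb_mem (convex_convexHull ℝ _) (subset_convexHull ℝ _ (by simp))
      (subset_convexHull ℝ _ (by simp)) (subset_convexHull ℝ _ (by simp)) (by linarith) hb0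
      (by linarith) (by ring)

lemma int_D {t p r u : ℝ} (h : r < u) :
    interior (convexHull ℝ {(⟨p, t⟩ : ℂ), ⟨r, t + 1⟩, ⟨u, t + 1⟩}) = OT t p p r u := by
  apply Set.Subset.antisymm
  · apply interior_sub
    apply convexHull_min _ (convex_CT _ _ _ _ _)
    rintro z (rfl | rfl | rfl)
    · exact ⟨le_rfl, by simp, by simp, by simp⟩
    · exact ⟨by simp, le_rfl, by simp, by simp; linarith⟩
    · exact ⟨by simp, le_rfl, by simp; linarith, by simp⟩
  · refine interior_maximal ?_ (isOpen_OT _ _ _ _ _)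
    rintro z ⟨h1, h2, h3, h4⟩
    have hqp : 0 < u - r := by linarith
    set b : ℝ := (z.re - (t + 1 - z.im) * p - (z.im - t) * r) / (u - r) with hb
    have hb' : b * (u - r) = z.re - (t + 1 - z.im) * p - (z.im - t) * r := by
      rw [hb]; field_simp
    have hb0 : 0 ≤ b := div_nonneg (by linarith) hqp.le
    have hb1 : b ≤ z.im - t := by
      rw [hb, div_le_iff₀ hqp]; nlinarith
    have hz : z = (t + 1 - z.im) • (⟨p, t⟩ : ℂ) + (z.im - t - b) • (⟨r, t + 1⟩ : ℂ) +
        b • (⟨u, t + 1⟩ : ℂ) := by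
      apply Complex.ext <;>
        simp only [Complex.add_im, Complex.add_re, Complex.real_smul, Complex.mul_im,
          Complex.mul_re, Complex.ofReal_re, Complex.ofReal_im, zero_mul, add_zero, sub_zero]
      · linarith
      · ring
    rw [hz]
    exact comb_mem (convex_convexHull ℝ _) (subset_convexHull ℝ _ (by simp))
      (subset_convexHull ℝ _ (by simp)) (subset_convexHull ℝ _ (by simp)) (by linarith)
      (by linarith) hb0 (by ring)

lemma place_eq (t i : ℤ) : place (t, i) = (⟨(i : ℝ), (t : ℝ)⟩ : ℂ) := by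
  apply Complex.ext <;> simp [place]

lemma place_eq' (t i : ℤ) : place (t + 1, i) = (⟨(i : ℝ), (t : ℝ) + 1⟩ : ℂ) := by
  apply Complex.ext <;> simp [place]

/-- a point of the drawing strictly between two rows -/
lemma draw_strip {α : ℤ → ℤ → ℤ} {w : ℂ} (hw : w ∈ Draw α) {t : ℤ} (h1 : (t : ℝ) < w.im)
    (h2 : w.im < t + 1) : ∃ i j : ℤ, α t i ≤ j ∧ j ≤ α t (i + 1) ∧
      w.re = ((t : ℝ) + 1 - w.im) * i + (w.im - t) * j := by
  obtain ⟨⟨t', i⟩, ⟨t'', j⟩, hr, hs⟩ := hw
  obtain ⟨a, b, ha, hb, hab, rfl⟩ := hs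
  have hb' : a = 1 - b := by linarith
  subst hb'
  rcases hr with ⟨e1, e2⟩ | ⟨e1, e2, e3⟩
  · simp only at e1 e2
    subst e1
    simp only [place, Complex.add_im, Complex.add_re, Complex.real_smul, Complex.mul_im,
      Complex.mul_re, Complex.ofReal_re, Complex.ofReal_im, Complex.intCast_re, Complex.intCast_im,
      Complex.I_re, Complex.I_im, zero_mul, add_zero, sub_zero, mul_zero, mul_one, zero_add] at h1 h2
    have h3 : (t : ℝ) < t'' := by nlinarith
    have h4 : (t'' : ℝ) < t + 1 := by nlinarith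
    have h5 : t < t'' := by exact_mod_cast h3
    have h6 : t'' < t + 1 := by exact_mod_cast h4
    omega
  · simp only at e1 e2 e3
    subst e1
    simp only [place, Complex.add_im, Complex.add_re, Complex.real_smul, Complex.mul_im,
      Complex.mul_re, Complex.ofReal_re, Complex.ofReal_im, Complex.intCast_re, Complex.intCast_im,
      Complex.I_re, Complex.I_im, zero_mul, add_zero, sub_zero, mul_zero, mul_one, zero_add,
      Int.cast_add, Int.cast_one, Complex.one_re, Complex.one_im] at h1 h2 ⊢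
    have h3 : (t : ℝ) < t' + 1 := by nlinarith
    have h4 : (t' : ℝ) < t + 1 := by nlinarith
    have h5 : t < t' + 1 := by exact_mod_cast h3
    have h6 : t' < t + 1 := by exact_mod_cast h4
    have h7 : t' = t := by omega
    subst h7
    refine ⟨i, j, e2, e3, ?_⟩
    ring

lemma cross_mem {α : ℤ → ℤ → ℤ} {t i j : ℤ} (h1 : α t i ≤ j) (h2 : j ≤ α t (i + 1)) {w : ℂ}
    (h3 : (t : ℝ) ≤ w.im) (h4 : w.im ≤ t + 1)
    (h5 : w.re = ((t : ℝ) + 1 - w.im) * i + (w.im - t) * j) : w ∈ Draw α := by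
  refine ⟨(t, i), (t + 1, j), Or.inr ⟨rfl, h1, h2⟩, (t : ℝ) + 1 - w.im, w.im - t, by linarith,
    by linarith, by ring, ?_⟩
  rw [place_eq, place_eq']
  apply Complex.ext <;>
    simp only [Complex.add_im, Complex.add_re, Complex.real_smul, Complex.mul_im,
      Complex.mul_re, Complex.ofReal_re, Complex.ofReal_im, zero_mul, add_zero, sub_zero]
  · exact h5.symm
  · ring

theorem t_TOP2 : S_TOP2 := by
  intro α hα z hz
  set t : ℤ := ⌊z.im⌋ with ht
  have ht0 : (t : ℝ) ≤ z.im := Int.floor_le _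
  have ht1 : z.im < t + 1 := Int.lt_floor_add_one _
  -- the height is not an integer
  have ht2 : (t : ℝ) < z.im := by
    refine lt_of_le_of_ne ht0 fun h => hz ?_
    refine ⟨(t, ⌊z.re⌋), (t, ⌊z.re⌋ + 1), Or.inl ⟨rfl, rfl⟩, 1 - Int.fract z.re, Int.fract z.re,
      by linarith [Int.fract_lt_one z.re], Int.fract_nonneg _, by ring, ?_⟩
    rw [place_eq, place_eq]
    apply Complex.ext <;>
      simp only [Complex.add_im, Complex.add_re, Complex.real_smul, Complex.mul_im,
        Complex.mul_re, Complex.ofReal_re, Complex.ofReal_im, zero_mul, add_zero, sub_zero,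
        Int.cast_add, Int.cast_one]
    · have := Int.floor_add_fract z.re
      nlinarith
    · rw [← h]; ring
  set s : ℝ := z.im - t with hs
  have hs0 : 0 < s := by linarith
  have hs1 : 0 < t + 1 - z.im := by linarith
  have hoff : ∀ i j : ℤ, α t i ≤ j → j ≤ α t (i + 1) →
      z.re ≠ ((t : ℝ) + 1 - z.im) * i + (z.im - t) * j := fun i j h1 h2 h3 =>
    hz (cross_mem h1 h2 ht0 ht1.le h3)
  -- the index
  obtain ⟨i, hi, hi'⟩ := Int.exists_greatest_of_bdd
    (P := fun i : ℤ => ((t : ℝ) + 1 - z.im) * i + (z.im - t) * α t i ≤ z.re)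
    (by
      obtain ⟨i1, h1⟩ := hα.above t (⌊z.re⌋ + 1)
      refine ⟨max i1 (⌊z.re⌋ + 1), fun i hi => ?_⟩
      by_contra hcon
      rw [not_le] at hcon
      have h2 : i1 ≤ i := (le_max_left _ _).trans hcon.le
      have h3 : ⌊z.re⌋ + 1 ≤ i := (le_max_right _ _).trans hcon.le
      have h4 : ⌊z.re⌋ + 1 ≤ α t i := h1.trans (hα.mono t h2)
      have h5 : (⌊z.re⌋ : ℝ) + 1 ≤ i := by exact_mod_cast h3
      have h6 : (⌊z.re⌋ : ℝ) + 1 ≤ α t i := by exact_mod_cast h4
      have h7 := Int.lt_floor_add_one z.re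
      nlinarith [mul_le_mul_of_nonneg_left h5 hs1.le, mul_le_mul_of_nonneg_left h6 hs0.le])
    (by
      obtain ⟨i1, h1⟩ := hα.below t ⌊z.re⌋
      refine ⟨min i1 ⌊z.re⌋, ?_⟩
      have h2 : α t (min i1 ⌊z.re⌋) ≤ ⌊z.re⌋ := (hα.mono t (min_le_left _ _)).trans h1
      have h3 : min i1 ⌊z.re⌋ ≤ ⌊z.re⌋ := min_le_right _ _
      have h5 : ((min i1 ⌊z.re⌋ : ℤ) : ℝ) ≤ (⌊z.re⌋ : ℝ) := by exact_mod_cast h3
      have h6 : (α t (min i1 ⌊z.re⌋) : ℝ) ≤ (⌊z.re⌋ : ℝ) := by exact_mod_cast h2
      have h7 := Int.floor_le z.re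
      nlinarith [mul_le_mul_of_nonneg_left h5 hs1.le, mul_le_mul_of_nonneg_left h6 hs0.le])
  have hlow : ((t : ℝ) + 1 - z.im) * i + (z.im - t) * α t i < z.re :=
    lt_of_le_of_ne hi fun h => hoff i (α t i) le_rfl (hα.mono t (by omega)) h.symm
  have hupp : z.re < ((t : ℝ) + 1 - z.im) * ((i + 1 : ℤ) : ℝ) + (z.im - t) * α t (i + 1) := by
    by_contra hcon
    rw [not_lt] at hcon
    have := hi' (i + 1) hcon
    omega
  have hij : α t i ≤ α t (i + 1) := hα.mono t (by omega)
  have hij' : α t (i + 1) ≤ α t (i + 1 + 1) := hα.mono t (by omega)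
  rcases lt_or_ge (((t : ℝ) + 1 - z.im) * i + (z.im - t) * α t (i + 1)) z.re with hc | hc
  · -- apex above
    set j : ℤ := α t (i + 1) with hj
    have hint : interior (convexHull ℝ {place (t, i), place (t, i + 1), place (t + 1, j)}) =
        OT t i (i + 1) j j := by
      rw [place_eq, place_eq, place_eq']
      have := int_U (t := (t : ℝ)) (p := (i : ℝ)) (q := (i : ℝ) + 1) (r := (j : ℝ)) (by linarith)
      rw [← this]
      push_cast
      rfl
    refine ⟨(t, i), (t, i + 1), (t + 1, j), ?_, ?_, ?_, ?_, ?_, ?_⟩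
    · rw [RowGraph, SimpleGraph.fromRel_adj]
      exact ⟨by simp, Or.inl (Or.inl ⟨rfl, rfl⟩)⟩
    · rw [RowGraph, SimpleGraph.fromRel_adj]
      exact ⟨by simp, Or.inl (Or.inr ⟨rfl, le_rfl, hij'⟩)⟩
    · rw [RowGraph, SimpleGraph.fromRel_adj]
      exact ⟨by simp, Or.inr (Or.inr ⟨rfl, hij, le_rfl⟩)⟩
    · apply aff
      rw [place_eq, place_eq, place_eq']
      simp
    · rw [hint, Set.eq_empty_iff_forall_notMem]
      rintro w ⟨⟨w1, w2, w3, w4⟩, hw⟩
      obtain ⟨i', j', e1, e2, e3⟩ := draw_strip hw w1 w2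
      rw [e3] at w3 w4
      have g1 : 0 < (t : ℝ) + 1 - w.im := by linarith
      have g2 : 0 < w.im - t := by linarith
      rcases le_or_gt i' i with h | h
      · have h1 : j' ≤ j := e2.trans (hα.mono t (by omega))
        have h2 : (i' : ℝ) ≤ i := by exact_mod_cast h
        have h3 : (j' : ℝ) ≤ j := by exact_mod_cast h1
        nlinarith [mul_le_mul_of_nonneg_left h2 g1.le, mul_le_mul_of_nonneg_left h3 g2.le]
      · have h1 : j ≤ j' := le_trans (hα.mono t (by omega)) e1
        have h2 : (i : ℝ) + 1 ≤ i' := by exact_mod_cast h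
        have h3 : (j : ℝ) ≤ j' := by exact_mod_cast h1
        nlinarith [mul_le_mul_of_nonneg_left h2 g1.le, mul_le_mul_of_nonneg_left h3 g2.le]
    · rw [hint]
      refine ⟨ht2, ht1, hc, ?_⟩
      push_cast at hupp
      exact hupp
  · -- apex below
    have hc' : z.re < ((t : ℝ) + 1 - z.im) * i + (z.im - t) * α t (i + 1) :=
      lt_of_le_of_ne hc (hoff i (α t (i + 1)) hij le_rfl)
    set v : ℝ := (z.re - ((t : ℝ) + 1 - z.im) * i) / s with hv
    have hv' : s * v = z.re - ((t : ℝ) + 1 - z.im) * i := by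
      rw [hv]; field_simp
    set j : ℤ := ⌊v⌋ with hj
    have hj0 : (j : ℝ) ≤ v := Int.floor_le _
    have hj1 : v < j + 1 := Int.lt_floor_add_one _
    have a1 : α t i ≤ j := by
      rw [hj, Int.le_floor, hv, le_div_iff₀ hs0]
      linarith
    have a2 : j < α t (i + 1) := by
      have : (j : ℝ) < α t (i + 1) := by
        refine lt_of_le_of_lt hj0 ?_
        rw [hv, div_lt_iff₀ hs0]
        linarith
      exact_mod_cast this
    have a3 : ((t : ℝ) + 1 - z.im) * i + (z.im - t) * j < z.re := by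
      have h1 := mul_le_mul_of_nonneg_left hj0 hs0.le
      refine lt_of_le_of_ne (by linarith) fun h => hoff i j a1 a2.le h.symm
    have a4 : z.re < ((t : ℝ) + 1 - z.im) * i + (z.im - t) * (j + 1) := by
      have h1 := mul_lt_mul_of_pos_left hj1 hs0
      linarith
    have hint : interior (convexHull ℝ {place (t, i), place (t + 1, j), place (t + 1, j + 1)}) =
        OT t i i j (j + 1) := by
      rw [place_eq t i, place_eq' t j, place_eq' t (j + 1)]
      have := int_D (t := (t : ℝ)) (p := (i : ℝ)) (r := (j : ℝ)) (u := (j : ℝ) + 1) (by linarith)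
      rw [← this]
      push_cast
      rfl
    refine ⟨(t, i), (t + 1, j), (t + 1, j + 1), ?_, ?_, ?_, ?_, ?_, ?_⟩
    · rw [RowGraph, SimpleGraph.fromRel_adj]
      exact ⟨by simp, Or.inl (Or.inr ⟨rfl, a1, a2.le⟩)⟩
    · rw [RowGraph, SimpleGraph.fromRel_adj]
      exact ⟨by simp, Or.inl (Or.inl ⟨rfl, rfl⟩)⟩
    · rw [RowGraph, SimpleGraph.fromRel_adj]
      exact ⟨by simp, Or.inr (Or.inr ⟨rfl, by simp only; omega, by simp only; omega⟩)⟩
    · apply aff
      rw [place_eq t i, place_eq' t j, place_eq' t (j + 1)]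
      simp
    · rw [hint, Set.eq_empty_iff_forall_notMem]
      rintro w ⟨⟨w1, w2, w3, w4⟩, hw⟩
      obtain ⟨i', j', e1, e2, e3⟩ := draw_strip hw w1 w2
      rw [e3] at w3 w4
      have g1 : 0 < (t : ℝ) + 1 - w.im := by linarith
      have g2 : 0 < w.im - t := by linarith
      rcases lt_trichotomy i' i with h | h | h
      · have h1 : j' ≤ j := e2.trans ((hα.mono t (by omega)).trans a1)
        have h2 : (i' : ℝ) ≤ i := by exact_mod_cast h.le
        have h3 : (j' : ℝ) ≤ j := by exact_mod_cast h1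
        nlinarith [mul_le_mul_of_nonneg_left h2 g1.le, mul_le_mul_of_nonneg_left h3 g2.le]
      · subst h
        have h1 : (j : ℝ) < j' := by
          by_contra hcon
          rw [not_lt] at hcon
          nlinarith [mul_le_mul_of_nonneg_left hcon g2.le]
        have h2 : (j' : ℝ) < j + 1 := by
          by_contra hcon
          rw [not_lt] at hcon
          nlinarith [mul_le_mul_of_nonneg_left hcon g2.le]
        have h3 : j < j' := by exact_mod_cast h1
        have h4 : j' < j + 1 := by exact_mod_cast h2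
        omega
      · have h0 : α t (i + 1) ≤ α t i' := hα.mono t (by omega)
        have h1 : j + 1 ≤ j' := by omega
        have h2 : (i : ℝ) ≤ i' := by exact_mod_cast h.le
        have h3 : (j : ℝ) + 1 ≤ j' := by exact_mod_cast h1
        nlinarith [mul_le_mul_of_nonneg_left h2 g1.le, mul_le_mul_of_nonneg_left h3 g2.le]
    · rw [hint]
      exact ⟨ht2, ht1, a3, a4⟩

end Pool.Agent.W397.BW
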